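import Pool.Agent.Q57.TQ.Kod
import Pool.Agent.Y169.CH.Mak
import Pool.Agent.Y169.CH.Top

/-!
The main theorem for pairs on covers of products of projective spaces
(following `Pool.Agent.Y169.CH.Mak` and `Pool.Agent.Y169.CH.Top`).
-/

set_option autoImplicit false
set_option linter.overlappingInstances false
set_option linter.unusedSectionVars false
set_option maxHeartbeats 1000000

open FF MvPolynomial Pool.Agent.W603.LV Pool.Agent.W602.GT Pool.Agent.W602.Cov
open Pool.Agent.TH756.PR Pool.Agent.TH122.AB Pool.Agent.TH756.PN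
open Pool.Agent.Y169.CH Pool.Agent.Q57.TP

namespace Pool.Agent.Q57.TQ

variable {r N R : ℕ} {n : Fin r → ℕ} {K : Type} [Field K] [Algebra ℂ K]

section

variable {N' : ℕ} (e : ((i : Fin r) × Fin (n i)) ≃ Fin (N' + 1))

/-- **The cover.** -/
theorem exists_cvr_d (hn : ∀ i, 1 ≤ n i) {x : ∀ i, Fin (n i + 1) → K} (hx0 : ∀ i, x i 0 ≠ 0)
    (hbas : IsTranscendenceBasis ℂ (uu e x)) {F : ∀ i, MvPolynomial (Fin (n i + 1)) ℂ}
    {dF : Fin r → ℕ} (hdF : ∀ i, 1 ≤ dF i) (hs : ∀ i, SmF (F i))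
    (hh : ∀ i, (F i).IsHomogeneous (dF i)) {z : Fin R → K}
    {M : Fin R → ℕ} (hM : ∀ j, 0 < M j) {a : Fin R → Fin r → ℕ}
    (hz : ∀ j, z j ^ M j = ∏ i, (aeval (x i) (F i) / x i 0 ^ dF i) ^ a j i)
    (hdiv : ∀ j i, M j ∣ a j i * dF i)
    (hgen : IntermediateField.adjoin ℂ (Set.range (uu e x) ∪ Set.range z) = ⊤) :
    ∃ Φ : Blk ℂ (N' + 1) r, Smo Φ ∧ (∀ t, Φ.n t = n t) ∧ (∀ t, Φ.D t = dF t) ∧
      ∃ C : Cvr Φ K R, C.M = M ∧ C.a = a ∧ ∀ P v, MultH C P v → v = mulQ F dF x P := by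
  classical
  choose q c hq hc hqc using fun i => exists_sh (hh i) (smF_ne (hs i))
  obtain ⟨x', hx'⟩ : ∃ x' : ∀ i, Fin (n i + 1) → K, x' = fun i => shx (q i) (x i) := ⟨_, rfl⟩
  obtain ⟨F', hF'⟩ : ∃ F' : ∀ i, MvPolynomial (Fin (n i + 1)) ℂ,
    F' = fun i => shF (q i) (c i) (F i) := ⟨_, rfl⟩
  have hhF' : ∀ i, (F' i).IsHomogeneous (dF i) := fun i => by
    rw [hF']
    exact shF_hom _ _ (hh i)
  have hsF' : ∀ i, SmF (F' i) := fun i => by
    rw [hF']
    exact shF_smooth (hq i) (hc i) (hs i)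
  have hF3 : ∀ i, coeff (Finsupp.single (Fin.last (n i)) (dF i)) (F' i) = 1 := fun i => by
    rw [hF']
    exact hqc i
  have hxx' : ∀ i j, x i j = x' i j + algebraMap ℂ K (q i j) * x' i (Fin.last (n i)) := by
    intro i j
    rw [hx']
    dsimp only
    rw [shx_last (hq i)]
    unfold shx
    ring
  have hev : ∀ i, aeval (x' i) (F' i) = algebraMap ℂ K (c i) * aeval (x i) (F i) := fun i => by
    rw [hx', hF']
    exact aeval_shF (hq i) _ _ _
  have hx'0 : ∀ i, x' i 0 ≠ 0 := by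
    intro i h0
    rw [hx'] at h0
    obtain ⟨b, hb⟩ : ∃ b : Fin (n i), b.succ = Fin.last (n i) :=
      ⟨⟨n i - 1, by have := hn i; omega⟩, by
        apply Fin.ext
        have := hn i
        simp only [Fin.val_succ, Fin.val_last]
        omega⟩
    have h1 : aeval (uu e x) (1 - C (q i 0) * X (e ⟨i, b⟩)) = 0 := by
      rw [map_sub, map_one, map_mul, aeval_C, aeval_X]
      have h2 : uu e x (e ⟨i, b⟩) = x i (Fin.last (n i)) / x i 0 := by
        change aff x (e.symm (e ⟨i, b⟩)) = _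
        rw [e.symm_apply_apply, ← hb]
        rfl
      rw [h2]
      have h3 : x i 0 - algebraMap ℂ K (q i 0) * x i (Fin.last (n i)) = 0 := h0
      have h4 := hx0 i
      field_simp
      linear_combination h3
    have h2 := (injective_iff_map_eq_zero _).1 hbas.1 _ h1
    have h3 := congrArg (eval (0 : Fin (N' + 1) → ℂ)) h2
    simp at h3
  obtain ⟨ρ, hρ⟩ : ∃ ρ : Fin r → K, ρ = fun i => x i 0 / x' i 0 := ⟨_, rfl⟩
  have hρ0 : ∀ i, ρ i ≠ 0 := fun i => by
    rw [hρ]
    exact div_ne_zero (hx0 i) (hx'0 i)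
  -- the ratios in an intermediate field
  have hkey : ∀ L : IntermediateField ℂ K, (∀ b, uu e x' b ∈ L) → ∀ i j,
      x i j / x' i 0 ∈ L := by
    intro L hL i j
    have h1 : ∀ j, x' i j / x' i 0 ∈ L := by
      intro j
      refine Fin.cases ?_ (fun l => ?_) j
      · rw [div_self (hx'0 i)]
        exact L.one_mem
      · have h2 := hL (e ⟨i, l⟩)
        have h3 : uu e x' (e ⟨i, l⟩) = x' i l.succ / x' i 0 := by
          change aff x' (e.symm (e ⟨i, l⟩)) = _
          rw [e.symm_apply_apply]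
          rfl
        rwa [h3] at h2
    have h2 : x i j / x' i 0 = x' i j / x' i 0 +
        algebraMap ℂ K (q i j) * (x' i (Fin.last (n i)) / x' i 0) := by
      rw [hxx' i j]
      ring
    rw [h2]
    exact L.add_mem (h1 j) (L.mul_mem (L.algebraMap_mem _) (h1 _))
  have hkey2 : ∀ L : IntermediateField ℂ K, (∀ b, uu e x' b ∈ L) → ∀ b, uu e x b ∈ L := by
    intro L hL b
    have h1 : uu e x b = (x (e.symm b).1 (e.symm b).2.succ / x' (e.symm b).1 0) /
        (x (e.symm b).1 0 / x' (e.symm b).1 0) := by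
      rw [div_div_div_cancel_right₀ (hx'0 _)]
      rfl
    rw [h1]
    exact L.div_mem (hkey L hL _ _) (hkey L hL _ _)
  have hbas' : IsTranscendenceBasis ℂ (uu e x') := by
    refine basis_of_le hbas ?_
    rw [IntermediateField.adjoin_le_iff]
    rintro _ ⟨b, rfl⟩
    refine hkey2 _ (fun b' => ?_) b
    exact IntermediateField.subset_adjoin ℂ _ (Set.mem_range_self b')
  -- the constants
  have hκ : ∀ j, ∃ κ : ℂ, κ ^ M j = ∏ i, c i ^ a j i := fun j =>
    IsAlgClosed.exists_pow_nat_eq _ (hM j)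
  choose κ hκ using hκ
  have hκ0 : ∀ j, κ j ≠ 0 := by
    intro j h0
    have h1 := hκ j
    rw [h0, zero_pow (hM j).ne'] at h1
    exact (Finset.prod_ne_zero_iff.2 fun i _ => pow_ne_zero _ (hc i)) h1.symm
  obtain ⟨s, hs'⟩ : ∃ s : Fin R → K, s = fun j => algebraMap ℂ K (κ j) *
    ∏ i, ρ i ^ (a j i * dF i / M j) := ⟨_, rfl⟩
  have hs0 : ∀ j, s j ≠ 0 := fun j => by
    rw [hs']
    exact mul_ne_zero (by rw [Ne, map_eq_zero]; exact hκ0 j)
      (Finset.prod_ne_zero_iff.2 fun i _ => pow_ne_zero _ (hρ0 i))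
  have hsM : ∀ j, s j ^ M j = ∏ i, (algebraMap ℂ K (c i) * ρ i ^ dF i) ^ a j i := by
    intro j
    rw [hs']
    dsimp only
    rw [mul_pow, ← map_pow, hκ, map_prod, ← Finset.prod_pow, ← Finset.prod_mul_distrib]
    refine Finset.prod_congr rfl fun i _ => ?_
    rw [map_pow, ← pow_mul, Nat.div_mul_cancel (hdiv j i), mul_pow, ← pow_mul, mul_comm (dF i)]
  refine ⟨hblk e hn hdF hhF' hF3, hblk_smo e hn hdF hhF' hF3 hsF', hblk_n e hn hdF hhF' hF3,
    fun t => rfl, ⟨uu e x', hbas', fun j => z j * s j, M, hM, a, fun j => ?_, hdiv, ?_⟩, rfl, rfl,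
    fun P v hm => ?_⟩
  · rw [mul_pow, hz, hsM, ← Finset.prod_mul_distrib]
    refine Finset.prod_congr rfl fun i _ => ?_
    have h1 : aeval (uu e x') ((hblk e hn hdF hhF' hF3).F i) =
        aeval (x' i) (F' i) / x' i 0 ^ dF i := aeval_dh e hx'0 (hhF' i)
    rw [h1, hev, ← mul_pow, hρ]
    congr 1
    have h2 := hx0 i
    have h3 := hx'0 i
    dsimp only
    rw [div_pow]
    field_simp
  · rw [eq_top_iff, ← hgen, IntermediateField.adjoin_le_iff]
    obtain ⟨L, hL⟩ : ∃ L, L = IntermediateField.adjoin ℂ (Set.range (uu e x') ∪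
      Set.range fun j => z j * s j) := ⟨_, rfl⟩
    rw [← hL]
    have hu : ∀ b, uu e x' b ∈ L := fun b => by
      rw [hL]
      exact IntermediateField.subset_adjoin ℂ _ (Or.inl ⟨b, rfl⟩)
    rintro _ (⟨b, rfl⟩ | ⟨j, rfl⟩)
    · exact hkey2 L hu b
    · have h1 : z j * s j ∈ L := by
        rw [hL]
        exact IntermediateField.subset_adjoin ℂ _ (Or.inr ⟨j, rfl⟩)
      have h2 : s j ∈ L := by
        rw [hs']
        refine L.mul_mem (L.algebraMap_mem _) (L.prod_mem fun i _ => ?_)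
        have h3 : ρ i ∈ L := by
          rw [hρ]
          exact hkey L hu i 0
        exact pow_mem h3 _
      have h3 := L.div_mem h1 h2
      rwa [mul_div_cancel_right₀ _ (hs0 j)] at h3
  · obtain ⟨α, hα0, hα1, hα2, hv⟩ := hm
    have hxne : ∀ i j, x i j ≠ 0 := by
      intro i j
      refine Fin.cases (hx0 i) (fun l => ?_) j
      intro h0
      have h1 : uu e x (e ⟨i, l⟩) = 0 := by
        change aff x (e.symm (e ⟨i, l⟩)) = 0
        rw [e.symm_apply_apply]
        change x i l.succ / x i 0 = 0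
        rw [h0, zero_div]
      exact hbas.1.ne_zero _ h1
    have hZ' : ∀ i l, uu e x' (e ⟨i, l⟩) = x' i l.succ / x' i 0 := by
      intro i l
      change aff x' (e.symm (e ⟨i, l⟩)) = _
      rw [e.symm_apply_apply]
      rfl
    have hx'ne : ∀ i j, x' i j ≠ 0 := by
      intro i j
      refine Fin.cases (hx'0 i) (fun l => ?_) j
      intro h0
      have h1 := hZ' i l
      rw [h0, zero_div] at h1
      exact hbas'.1.ne_zero _ h1
    have hFx : ∀ i, aeval (x i) (F i) ≠ 0 := by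
      intro i h0
      have h1 : aeval (uu e x') ((hblk e hn hdF hhF' hF3).F i) =
          aeval (x' i) (F' i) / x' i 0 ^ dF i := aeval_dh e hx'0 (hhF' i)
      have h2 : aeval (uu e x') ((hblk e hn hdF hhF' hF3).F i) ≠ 0 := by
        intro h3
        exact (hblk e hn hdF hhF' hF3).F_ne i ((injective_iff_map_eq_zero _).1 hbas'.1 _ h3)
      apply h2
      rw [h1, hev, h0, mul_zero, zero_div]
    have hmin : ∀ i, minO (x i) P = minO (x' i) P := by
      intro i
      have hx'x : ∀ j, x' i j = x i j - algebraMap ℂ K (q i j) * x i (Fin.last (n i)) := by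
        intro j
        rw [hx']
        rfl
      apply le_antisymm
      · refine Finset.le_inf' _ _ fun j _ => ?_
        have h1 : Ge P (minO (x i) P) (x' i j) := by
          rw [hx'x j]
          refine Ge.sub (Or.inr (minO_le (x i) P j)) ?_
          have h2 := (ge_const P (q i j)).mul (Or.inr (minO_le (x i) P (Fin.last (n i))) :
            Ge P (minO (x i) P) (x i (Fin.last (n i))))
          simpa using h2
        exact h1.resolve_left (hx'ne i j)
      · refine Finset.le_inf' _ _ fun j _ => ?_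
        have h1 : Ge P (minO (x' i) P) (x i j) := by
          rw [hxx' i j]
          refine Ge.add (Or.inr (minO_le (x' i) P j)) ?_
          have h2 := (ge_const P (q i j)).mul (Or.inr (minO_le (x' i) P (Fin.last (n i))) :
            Ge P (minO (x' i) P) (x' i (Fin.last (n i))))
          simpa using h2
        exact h1.resolve_left (hxne i j)
    have hZo : ∀ i l, P.ord (uu e x' (e ⟨i, l⟩)) = P.ord (x' i l.succ) - P.ord (x' i 0) := by
      intro i l
      rw [hZ', P.ord_div (hx'ne i _) (hx'0 i)]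
    have hα : ∀ i, α i = minO (x' i) P - P.ord (x' i 0) := by
      intro i
      apply le_antisymm
      · obtain ⟨l, -, hl⟩ := Finset.exists_mem_eq_inf' (Finset.univ_nonempty (α := Fin (n i + 1)))
          fun j => P.ord (x' i j)
        have h0 : minO (x' i) P = P.ord (x' i l) := hl
        rw [h0]
        rcases Fin.eq_zero_or_eq_succ l with h1 | ⟨l', h1⟩
        · rw [h1, sub_self]
          exact hα0 i
        · have h2 := hα1 (e ⟨i, l'⟩)
          have h3 : (hblk e hn hdF hhF' hF3).τ (e ⟨i, l'⟩) = i := by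
            change (e.symm (e ⟨i, l'⟩)).1 = i
            rw [e.symm_apply_apply]
          rw [h3] at h2
          change α i ≤ P.ord (uu e x' (e ⟨i, l'⟩)) at h2
          rw [hZo] at h2
          rw [h1]
          exact h2
      · rcases hα2 i with h1 | ⟨b, hb, h1⟩
        · rw [h1]
          have := minO_le (x' i) P 0
          linarith
        · have hb' : (e.symm b).1 = i := hb
          subst hb'
          have h2 : P.ord (uu e x' b) = P.ord (x' (e.symm b).1 (e.symm b).2.succ) -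
              P.ord (x' (e.symm b).1 0) := by
            have h3 := hZo (e.symm b).1 (e.symm b).2
            rwa [show e ⟨(e.symm b).1, (e.symm b).2⟩ = b from e.apply_symm_apply b] at h3
          rw [h1]
          change _ ≤ P.ord (uu e x' b)
          rw [h2]
          have := minO_le (x' (e.symm b).1) P (e.symm b).2.succ
          linarith
    funext i
    have h1 : aeval (uu e x') ((hblk e hn hdF hhF' hF3).F i) =
        aeval (x' i) (F' i) / x' i 0 ^ dF i := aeval_dh e hx'0 (hhF' i)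
    have h2 := hv i
    change P.ord (aeval (uu e x') ((hblk e hn hdF hhF' hF3).F i)) = dF i * α i + v i at h2
    have hcne : algebraMap ℂ K (c i) ≠ 0 := by
      rw [Ne, map_eq_zero]
      exact hc i
    rw [h1, hev, P.ord_div (mul_ne_zero hcne (hFx i)) (pow_ne_zero _ (hx'0 i)),
      P.ord_mul hcne (hFx i), P.ord_const (hc i), zero_add, P.ord_pow, hα] at h2
    unfold mulQ
    rw [hmin]
    have h3 : P.ord (aeval (x i) (F i)) - dF i * minO (x' i) P = v i := by
      linarith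
    rw [h3, Int.toNat_natCast]

end

/-- **The main theorem.** -/
theorem main_d (hr : 1 ≤ r) (hn : ∀ i, 1 ≤ n i) (hN : N = ∑ i, n i)
    {F : ∀ i, MvPolynomial (Fin (n i + 1)) ℂ} {d : Fin r → ℕ} (hd : ∀ i, 1 ≤ d i)
    (hh : ∀ i, (F i).IsHomogeneous (d i)) (hs : ∀ i, SmF (F i))
    {x : ∀ i, Fin (n i + 1) → K} (hx0 : ∀ i, x i 0 ≠ 0)
    (hbas : IsTranscendenceBasis ℂ (aff x)) {m : Fin R → ℕ} (hm : ∀ j, 0 < m j)
    {a : Fin R → Fin r → ℕ} (hdiv : ∀ j i, m j ∣ a j i * d i) {z : Fin R → K}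
    (hz : ∀ j, z j ^ m j = ∏ i, (aeval (x i) (F i) / x i 0 ^ d i) ^ a j i)
    (hgen : IntermediateField.adjoin ℂ (Set.range (aff x) ∪ Set.range z) = ⊤)
    {c : (Fin r → ℕ) → ℚ} (hc0 : c 0 = 0) (hc1 : ∀ v, c v ≤ 1)
    (hmul : ∀ v (k : ℕ), 1 ≤ k → Adm m a v → 1 - c (k • v) ≤ k * (1 - c v))
    (hfg : FGH m a c) {δ : Place ℂ K → ℚ} (hδ : ∀ P, δ P = c (mulQ F d x P))
    (I : Finset (Fin r)) (hI : ∀ i, i ∈ I ↔ ∀ v, Adm m a v →
      ∑ s, (((d s : ℚ) - n s - 1) / d s) * v s = 1 - c v → v i = 0) :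
    (BPsef N δ ↔ ∀ v, Adm m a v → 1 - c v ≤ ∑ i, (((d i : ℚ) - n i - 1) / d i) * v i) ∧
    (BKod N δ 0 ↔ ∀ v, Adm m a v → 1 - c v ≤ ∑ i, (((d i : ℚ) - n i - 1) / d i) * v i) ∧
    ((∀ v, Adm m a v → 1 - c v ≤ ∑ i, (((d i : ℚ) - n i - 1) / d i) * v i) →
      BKod N δ (∑ i ∈ I, n i) ∧ BNum N δ (∑ i ∈ I, n i)) := by
  classical
  obtain ⟨N', rfl⟩ : ∃ N', N = N' + 1 := by
    have h1 : n ⟨0, hr⟩ ≤ ∑ i, n i :=
      Finset.single_le_sum (f := n) (fun _ _ => Nat.zero_le _) (Finset.mem_univ _)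
    have h2 := hn ⟨0, hr⟩
    exact ⟨N - 1, by omega⟩
  let e : ((i : Fin r) × Fin (n i)) ≃ Fin (N' + 1) :=
    finSigmaFinEquiv.trans (finCongr hN.symm)
  have hbas' : IsTranscendenceBasis ℂ (uu e x) := basis_uu e hbas
  have hrange : Set.range (uu e x) = Set.range (aff x) := by
    ext z
    constructor
    · rintro ⟨b, rfl⟩
      exact ⟨e.symm b, rfl⟩
    · rintro ⟨a, rfl⟩
      refine ⟨e a, ?_⟩
      change aff x (e.symm (e a)) = _
      rw [e.symm_apply_apply]
  obtain ⟨Φ, hΦ, hΦn, hΦD, C, hCM, hCa, hvv⟩ := exists_cvr_d e hn hx0 hbas' hd hs hh hm hz hdiv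
    (by rw [hrange]; exact hgen)
  have hcf : CoefH C c δ := ⟨hc0, hc1, fun P v h => by rw [hδ, hvv P v h]⟩
  have hx : ∀ i j, x i j ≠ 0 := by
    intro i j
    refine Fin.cases (hx0 i) (fun l => ?_) j
    intro h0
    have h1 : aff x ⟨i, l⟩ = 0 := by
      change x i l.succ / x i 0 = 0
      rw [h0, zero_div]
    exact hbas.1.ne_zero _ h1
  have hFx : ∀ i, aeval (x i) (F i) ≠ 0 := by
    intro i h0
    have h1 : aeval (uu e x) (dh e i (F i)) = 0 := by
      rw [aeval_dh e hx0 (hh i), h0, zero_div]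
    have h2 := (injective_iff_map_eq_zero _).1 hbas'.1 _ h1
    -- the dehomogenisation is injective on forms
    apply smF_ne (hs i)
    by_contra hF
    obtain ⟨b, hb⟩ := MvPolynomial.ne_zero_iff.1 hF
    have h3 : coeff (ex e i b) (dh e i (F i)) = coeff b (F i) := by
      rw [coeff_dh, Finset.sum_eq_single b]
      · rw [if_pos rfl]
      · intro b' hb' hne
        rw [if_neg]
        intro hex
        apply hne
        have h4 : ∀ l : Fin (n i), b' l.succ = b l.succ := by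
          intro l
          rw [← ex_at e b' l, ← ex_at e b l, hex]
        have h5 := sum_hom (hh i) hb'
        have h6 := sum_hom (hh i) (mem_support_iff.2 hb)
        rw [Fin.sum_univ_succ] at h5 h6
        rw [Finset.sum_congr rfl fun l _ => h4 l] at h5
        ext j
        refine Fin.cases ?_ (fun l => h4 l) j
        omega
      · intro h
        rw [notMem_support_iff] at h
        rw [if_pos rfl, h]
    rw [h2, coeff_zero] at h3
    exact hb h3.symm
  -- the lower bound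
  have hlow : (∀ v, Adm m a v → 1 - c v ≤ ∑ i, (((d i : ℚ) - n i - 1) / d i) * v i) →
      ∀ (h : ℕ) (f : Fin h → Fin (N' + 1)), Function.Injective f → (∀ b, (e.symm (f b)).1 ∈ I) →
        BKod (N' + 1) δ h := fun hpos h f hf hfI =>
    kod_ge_d e hn hx hbas' hd hs hh hFx hm hz hdiv hc0 hc1 hfg hδ hpos I
      (fun i hi v hv h1 => (hI i).1 hi v hv h1) h f hf hfI
  have hnot : BPsef (N' + 1) δ →
      ∀ v, Adm m a v → 1 - c v ≤ ∑ i, (((d i : ℚ) - n i - 1) / d i) * v i := by
    rintro ⟨S, hS⟩ v hv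
    by_contra hcon
    push Not at hcon
    obtain ⟨M, hM⟩ := not_psef_d C hΦ hcf (by rw [hCM, hCa]; exact hmul) hv.1
      (by rw [hCM, hCa]; exact hv.2) (by simp only [hΦn, hΦD]; exact hcon) S
    obtain ⟨j, hj, ω, hω, hsec⟩ := hS M
    exact hω (hM j hj ω (bsec_sec hsec))
  refine ⟨⟨hnot, fun hpos => ?_⟩, ⟨fun hk => hnot (bpsef_of_kod hk), fun hpos => ?_⟩,
    fun hpos => ⟨?_, ?_⟩⟩
  · exact bpsef_of_kod (hlow hpos 0 Fin.elim0 (fun b => b.elim0) fun b => b.elim0)
  · exact hlow hpos 0 Fin.elim0 (fun b => b.elim0) fun b => b.elim0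
  · have hcard := card_free e I
    obtain ⟨s, hs⟩ : ∃ s : Finset (Fin (N' + 1)), s = Finset.univ.filter
      fun b : Fin (N' + 1) => ∀ t : {i : Fin r // i ∉ I}, b ∉ bk e t.1 := ⟨_, rfl⟩
    rw [← hs] at hcard
    refine hlow hpos (∑ i ∈ I, n i) (s.orderEmbOfFin hcard) (s.orderEmbOfFin hcard).injective
      fun b => ?_
    have hb : s.orderEmbOfFin hcard b ∈ s := Finset.orderEmbOfFin_mem s hcard b
    obtain ⟨c, hc⟩ : ∃ c, c = s.orderEmbOfFin hcard b := ⟨_, rfl⟩
    rw [← hc] at hb ⊢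
    rw [hs, Finset.mem_filter] at hb
    by_contra hcon
    exact hb.2 ⟨_, hcon⟩ ((mem_bk e).2 rfl)
  · intro S
    obtain ⟨C1, hC1⟩ := num_le_d C hΦ hcf (by rw [hCM, hCa]; exact hmul) I (fun t ht => by
      rw [hI] at ht
      push Not at ht
      obtain ⟨v, hv, hv1, hvt⟩ := ht
      refine ⟨v, hvt, by rw [hCM, hCa]; exact hv.2, ?_⟩
      simp only [hΦn, hΦD]
      exact hv1) S
    simp only [hΦn] at hC1
    refine ⟨C1, fun m' M hm' hω => ?_⟩
    obtain ⟨ω, hlin, hω⟩ := hω
    exact hC1 m' M hm' ω hlin fun l => bsec_one (hω l)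

end Pool.Agent.Q57.TQ
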