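import Pool.Agent.Q57.TQ.Cnt
import Pool.Agent.Q57.TP.Mak
import Pool.Agent.Y169.CH.Top

/-!
The lower bound for the Kodaira dimension of a pair, for covers of products of projective spaces
(following `Pool.Agent.Y169.CH.Kod`).
-/

set_option autoImplicit false
set_option linter.overlappingInstances false
set_option linter.unusedSectionVars false
set_option maxHeartbeats 1000000

open FF MvPolynomial Pool.Agent.W603.LV Pool.Agent.W602.GT Pool.Agent.W602.Cov
open Pool.Agent.TH756.PR Pool.Agent.TH122.AB Pool.Agent.TH756.PN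
open Pool.Agent.Y169.CH Pool.Agent.Q57.TP

namespace Pool.Agent.Q57.TQ

section arith

variable {r R : ℕ}

/-- finitely many of the inequalities imply the others -/
def FGH (M : Fin R → ℕ) (a : Fin R → Fin r → ℕ) (c : (Fin r → ℕ) → ℚ) : Prop :=
  ∃ T : Finset (Fin r → ℕ), (∀ s ∈ T, Adm M a s) ∧ ∀ v, Adm M a v →
    ∃ w : (Fin r → ℕ) → ℚ, (∀ s, 0 ≤ w s) ∧ (∀ k, ∑ s ∈ T, w s * s k ≤ v k) ∧
      1 - c v ≤ ∑ s ∈ T, w s * (1 - c s)

/-- finitely many values -/
theorem fgH_of_finite {M : Fin R → ℕ} {a : Fin R → Fin r → ℕ} {c : (Fin r → ℕ) → ℚ}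
    (hc : (Set.range c).Finite) : FGH M a c := by
  classical
  have h1 : {v | Minimal (· ∈ {w | Adm M a w ∧ c w = c v}) v} ⊆ ⋃ q ∈ Set.range c,
      {v | Minimal (· ∈ {w | Adm M a w ∧ c w = q}) v} := by
    intro v hv
    exact Set.mem_biUnion ⟨v, rfl⟩ hv
  have h3 : {v | Minimal (· ∈ {w | Adm M a w ∧ c w = c v}) v}.Finite := by
    refine (hc.biUnion fun q _ => ?_).subset h1
    have h2 : IsAntichain (· ≤ ·) {v | Minimal (· ∈ {w | Adm M a w ∧ c w = q}) v} :=
      setOfPred_minimal_antichain _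
    exact h2.finite_of_partiallyWellOrderedOn (Set.isPWO_of_wellQuasiOrderedLE _)
  refine ⟨h3.toFinset, fun s hs => ?_, fun v hv => ?_⟩
  · have h4 := h3.mem_toFinset.1 hs
    exact h4.1.1
  · have h1 : ({w | Adm M a w ∧ c w = c v} : Set (Fin r → ℕ)).IsPWO :=
      Set.isPWO_of_wellQuasiOrderedLE _
    obtain ⟨s, hs, hm⟩ := h1.exists_le_minimal
      (show v ∈ {w | Adm M a w ∧ c w = c v} from ⟨hv, rfl⟩)
    have h2 : c s = c v := hm.1.2
    have hsT : s ∈ h3.toFinset := by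
      rw [h3.mem_toFinset]
      change Minimal (· ∈ {w | Adm M a w ∧ c w = c s}) s
      rw [h2]
      exact hm
    have key : ∀ f : (Fin r → ℕ) → ℚ, ∑ t ∈ h3.toFinset, (if t = s then 1 else 0) * f t = f s := by
      intro f
      rw [Finset.sum_eq_single s]
      · rw [if_pos rfl, one_mul]
      · intro t _ ht
        rw [if_neg ht, zero_mul]
      · intro h
        exact absurd hsT h
    refine ⟨fun t => if t = s then 1 else 0, fun t => ?_, fun k => ?_, ?_⟩
    · dsimp only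
      split_ifs
      · exact zero_le_one
      · exact le_rfl
    · rw [key fun t => (t k : ℚ)]
      exact_mod_cast hs k
    · rw [key fun t => 1 - c t, h2]

/-- the numerical estimate -/
theorem arith_key_d {M : Fin R → ℕ} (hM : ∀ j, 0 < M j) (a : Fin R → Fin r → ℕ) (n dF : Fin r → ℕ)
    (hd : ∀ i, 1 ≤ dF i) {c : (Fin r → ℕ) → ℚ} (hc1 : ∀ v, c v ≤ 1) (hfg : FGH M a c)
    (hpos : ∀ v, Adm M a v → 1 - c v ≤ ∑ i, (((dF i : ℚ) - n i - 1) / dF i) * v i)
    (I : Finset (Fin r)) (hI : ∀ i ∈ I, ∀ v, Adm M a v →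
      ∑ s, (((dF s : ℚ) - n s - 1) / dF s) * v s = 1 - c v → v i = 0) :
    ∃ (T : ℕ) (E : Fin r → ℕ), 0 < T ∧ (∀ i, E i * dF i = T * (n i + 1)) ∧
      ∀ v, Adm M a v → (T : ℚ) * (1 - c v) + ∑ i ∈ I, (v i : ℚ) ≤ ∑ i, ((T : ℚ) - E i) * v i := by
  classical
  obtain ⟨α, hα⟩ : ∃ α : Fin r → ℚ, α = fun i => ((dF i : ℚ) - n i - 1) / dF i := ⟨_, rfl⟩
  have hα' : ∀ v : Fin r → ℕ, ∑ i, (((dF i : ℚ) - n i - 1) / dF i) * v i = ∑ i, α i * v i :=
    fun v => by rw [hα]
  simp only [hα'] at hpos hI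
  have hsingle : ∀ i, ∑ s, α s * ((Pi.single i (∏ j, M j) : Fin r → ℕ) s : ℚ) =
      α i * ((∏ j, M j : ℕ) : ℚ) := by
    intro i
    rw [Finset.sum_eq_single i, Pi.single_eq_same]
    · intro s _ hs
      rw [Pi.single_eq_of_ne hs]
      simp
    · intro h
      exact absurd (Finset.mem_univ _) h
  have hPq : (0 : ℚ) < ((∏ j, M j : ℕ) : ℚ) := by
    exact_mod_cast Finset.prod_pos fun j _ => hM j
  have hα0 : ∀ i, 0 ≤ α i := by
    intro i
    have h1 := hpos _ (adm_single hM a i)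
    rw [hsingle] at h1
    have h2 := hc1 (Pi.single i (∏ j, M j))
    by_contra hcon
    push Not at hcon
    have h3 : α i * ((∏ j, M j : ℕ) : ℚ) < 0 := mul_neg_of_neg_of_pos hcon hPq
    linarith
  have hαI : ∀ i ∈ I, 0 < α i := by
    intro i hi
    refine lt_of_le_of_ne (hα0 i) fun h0 => ?_
    have h1 := hpos _ (adm_single hM a i)
    rw [hsingle, ← h0, zero_mul] at h1
    have h2 := hc1 (Pi.single i (∏ j, M j))
    have h3 := hI i hi _ (adm_single hM a i) (by
      rw [hsingle, ← h0, zero_mul]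
      linarith)
    rw [Pi.single_eq_same] at h3
    exact (Finset.prod_pos fun j _ => hM j).ne' h3
  obtain ⟨Ts, hTs, hfg⟩ := hfg
  -- a small number
  obtain ⟨ε, hε0, hε1, hε2⟩ : ∃ ε : ℚ, 0 < ε ∧ (∀ i ∈ I, ε ≤ α i) ∧
      ∀ s ∈ Ts, 1 - c s + ε * ∑ i ∈ I, (s i : ℚ) ≤ ∑ i, α i * s i := by
    have h1 : ∀ᶠ ε : ℚ in nhdsWithin 0 (Set.Ioi 0), ∀ i ∈ I, ε ≤ α i := by
      rw [Filter.eventually_all_finset]
      intro i hi
      exact nhdsWithin_le_nhds ((eventually_lt_nhds (hαI i hi)).mono fun _ h => h.le)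
    have h2 : ∀ᶠ ε : ℚ in nhdsWithin 0 (Set.Ioi 0), ∀ s ∈ Ts,
        1 - c s + ε * ∑ i ∈ I, (s i : ℚ) ≤ ∑ i, α i * s i := by
      rw [Filter.eventually_all_finset]
      intro s hs
      by_cases heq : ∑ i, α i * s i = 1 - c s
      · refine Filter.Eventually.of_forall fun ε => ?_
        rw [Finset.sum_eq_zero fun i hi => by rw [hI i hi s (hTs s hs) heq]; rfl, mul_zero,
          add_zero, heq]
      · have h3 : 1 - c s < ∑ i, α i * s i :=
          lt_of_le_of_ne (hpos s (hTs s hs)) fun h => heq h.symm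
        have h4 : (0 : ℚ) < (∑ i, α i * s i - (1 - c s)) / (1 + ∑ i ∈ I, (s i : ℚ)) := by
          apply div_pos (by linarith)
          positivity
        refine nhdsWithin_le_nhds ((eventually_lt_nhds h4).mono fun ε h => ?_)
        rw [lt_div_iff₀ (by positivity)] at h
        by_cases hε : 0 ≤ ε
        · linarith
        · have h5 : ε * ∑ i ∈ I, (s i : ℚ) ≤ 0 :=
            mul_nonpos_of_nonpos_of_nonneg (by linarith) (by positivity)
          linarith
    have h6 : ∀ᶠ ε : ℚ in nhdsWithin 0 (Set.Ioi 0), ε ∈ Set.Ioi (0 : ℚ) := self_mem_nhdsWithin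
    obtain ⟨ε, h3, h4, h5⟩ := (h6.and (h1.and h2)).exists
    exact ⟨ε, h3, h4, h5⟩
  -- the estimate for all vectors
  have hkey : ∀ v, Adm M a v → 1 - c v + ε * ∑ i ∈ I, (v i : ℚ) ≤ ∑ i, α i * v i := by
    intro v hv
    obtain ⟨w, hw0, hwv, hw1⟩ := hfg v hv
    obtain ⟨β, hβ⟩ : ∃ β : Fin r → ℚ, β = fun i => α i - if i ∈ I then ε else 0 := ⟨_, rfl⟩
    have hβ0 : ∀ i, 0 ≤ β i := by
      intro i
      rw [hβ]
      dsimp only
      split_ifs with hi
      · linarith [hε1 i hi]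
      · linarith [hα0 i]
    have hβs : ∀ u : Fin r → ℕ, ∑ i, β i * u i = ∑ i, α i * u i - ε * ∑ i ∈ I, (u i : ℚ) := by
      intro u
      rw [hβ, Finset.mul_sum]
      simp only [sub_mul, ite_mul, zero_mul]
      rw [Finset.sum_sub_distrib, Finset.sum_ite_mem, Finset.univ_inter]
    have h1 : ∑ s ∈ Ts, w s * (1 - c s) ≤ ∑ s ∈ Ts, w s * ∑ i, β i * s i := by
      refine Finset.sum_le_sum fun s hs => mul_le_mul_of_nonneg_left ?_ (hw0 s)
      rw [hβs]
      linarith [hε2 s hs]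
    have h2 : ∑ s ∈ Ts, w s * ∑ i, β i * s i = ∑ i, β i * ∑ s ∈ Ts, w s * s i := by
      simp only [Finset.mul_sum]
      rw [Finset.sum_comm]
      exact Finset.sum_congr rfl fun i _ => Finset.sum_congr rfl fun s _ => by ring
    have h3 : ∑ i, β i * ∑ s ∈ Ts, w s * s i ≤ ∑ i, β i * v i :=
      Finset.sum_le_sum fun i _ => mul_le_mul_of_nonneg_left (hwv i) (hβ0 i)
    rw [hβs v] at h3
    linarith
  -- the multiple
  obtain ⟨t, ht⟩ := exists_nat_gt (1 / ε)
  have ht1 : 1 ≤ (t : ℚ) * ε := by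
    rw [div_lt_iff₀ hε0] at ht
    exact ht.le
  have ht0 : 0 < t := by
    rcases Nat.eq_zero_or_pos t with h | h
    · rw [h] at ht1
      norm_num at ht1
    · exact h
  obtain ⟨Q, hQ⟩ : ∃ Q, Q = ∏ i, dF i := ⟨_, rfl⟩
  have hQ0 : 0 < Q := by
    rw [hQ]
    exact Finset.prod_pos fun i _ => hd i
  have hdvd : ∀ i, dF i ∣ Q := fun i => by
    rw [hQ]
    exact Finset.dvd_prod_of_mem dF (Finset.mem_univ i)
  choose q hq using hdvd
  refine ⟨t * Q, fun i => t * q i * (n i + 1), by positivity, fun i => ?_, fun v hv => ?_⟩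
  · have h1 := hq i
    calc t * q i * (n i + 1) * dF i = t * (dF i * q i) * (n i + 1) := by ring
      _ = t * Q * (n i + 1) := by rw [← h1]
  · have h1 : ∀ i, ((t * Q : ℕ) : ℚ) - ((t * q i * (n i + 1) : ℕ) : ℚ) = (t * Q : ℚ) * α i := by
      intro i
      have h2 : (Q : ℚ) = dF i * q i := by exact_mod_cast hq i
      have h3 : (dF i : ℚ) ≠ 0 := by
        have := hd i
        exact_mod_cast (show dF i ≠ 0 by omega)
      rw [hα]
      push_cast
      rw [h2]
      field_simp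
      ring
    have h9 : ∑ i, (((t * Q : ℕ) : ℚ) - ((t * q i * (n i + 1) : ℕ) : ℚ)) * v i =
        ∑ i, (t * Q : ℚ) * α i * v i := Finset.sum_congr rfl fun i _ => by rw [h1 i]
    dsimp only
    rw [h9]
    have h4 := mul_le_mul_of_nonneg_left (hkey v hv) (show (0 : ℚ) ≤ t * Q by positivity)
    have h5 : ∑ i, (t * Q : ℚ) * α i * v i = t * Q * ∑ i, α i * v i := by
      rw [Finset.mul_sum]
      exact Finset.sum_congr rfl fun i _ => by ring
    rw [h5]
    have h6 : (1 : ℚ) ≤ t * Q * ε := by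
      have h7 : (1 : ℚ) ≤ Q := by exact_mod_cast hQ0
      nlinarith
    have h7 : (0 : ℚ) ≤ ∑ i ∈ I, (v i : ℚ) := by positivity
    have h8 : 1 * ∑ i ∈ I, (v i : ℚ) ≤ t * Q * ε * ∑ i ∈ I, (v i : ℚ) :=
      mul_le_mul_of_nonneg_right h6 h7
    push_cast
    linarith

end arith

variable {K : Type} [Field K] [Algebra ℂ K] {r N R : ℕ} {n : Fin r → ℕ}
  (e : ((i : Fin r) × Fin (n i)) ≃ Fin N)

/-- the multiplicities of the hypersurfaces -/
noncomputable def mulQ (F : ∀ i, MvPolynomial (Fin (n i + 1)) ℂ) (dF : Fin r → ℕ)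
    (x : ∀ i, Fin (n i + 1) → K) (P : Place ℂ K) (i : Fin r) : ℕ :=
  (P.ord (aeval (x i) (F i)) - dF i * minO (x i) P).toNat

/-- **The Kodaira dimension.** -/
theorem kod_ge_d (hn : ∀ i, 1 ≤ n i) {x : ∀ i, Fin (n i + 1) → K} (hx : ∀ i j, x i j ≠ 0)
    (hbas : IsTranscendenceBasis ℂ (uu e x)) {F : ∀ i, MvPolynomial (Fin (n i + 1)) ℂ}
    {dF : Fin r → ℕ} (hdF : ∀ i, 1 ≤ dF i) (hs : ∀ i, SmF (F i))
    (hh : ∀ i, (F i).IsHomogeneous (dF i)) (hFx : ∀ i, aeval (x i) (F i) ≠ 0) {z : Fin R → K}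
    {M : Fin R → ℕ} (hM : ∀ j, 0 < M j) {a : Fin R → Fin r → ℕ}
    (hz : ∀ j, z j ^ M j = ∏ i, (aeval (x i) (F i) / x i 0 ^ dF i) ^ a j i)
    (hdiv : ∀ j i, M j ∣ a j i * dF i) {c : (Fin r → ℕ) → ℚ} (hc0 : c 0 = 0)
    (hc1 : ∀ v, c v ≤ 1) (hfg : FGH M a c) {δ : Place ℂ K → ℚ}
    (hδ : ∀ P, δ P = c (mulQ F dF x P))
    (hpos : ∀ v, Adm M a v → 1 - c v ≤ ∑ i, (((dF i : ℚ) - n i - 1) / dF i) * v i)
    (I : Finset (Fin r)) (hI : ∀ i ∈ I, ∀ v, Adm M a v →
      ∑ s, (((dF s : ℚ) - n s - 1) / dF s) * v s = 1 - c v → v i = 0)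
    (h : ℕ) (f : Fin h → Fin N) (hf : Function.Injective f) (hfI : ∀ b, (e.symm (f b)).1 ∈ I) :
    BKod N δ h := by
  classical
  obtain ⟨T, E, hT, hE, hkey⟩ := arith_key_d hM a n dF hdF hc1 hfg hpos I hI
  obtain ⟨D0, hD0⟩ := exists_om_ne e (fun i => hx i 0) hbas
  obtain ⟨L, hL⟩ : ∃ L : Fin r → K, L = fun i => aeval (x i) (F i) / x i 0 ^ (dF i - 1) := ⟨_, rfl⟩
  have hLne : ∀ i, L i ≠ 0 := fun i => by
    rw [hL]
    exact div_ne_zero (hFx i) (pow_ne_zero _ (hx i 0))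
  let den : K := ∏ i, aeval (x i) (F i) ^ E i
  have hden : den ≠ 0 := Finset.prod_ne_zero_iff.2 fun i _ => pow_ne_zero _ (hFx i)
  let Fb : Fin (h + 1) → Fin (N + 1) := Fin.cases 0 fun b => (f b).succ
  refine ⟨T, hT, fun b D => om e D x ^ T / den * ∏ i ∈ I, x i (pick e (Fb b) i) / L i,
    fun b => ⟨?_, fun P _ D hD => ?_⟩, D0, ?_, ?_⟩
  · intro A D
    dsimp only
    rw [om_lin, mul_pow]
    ring
  · -- the multiplicities
    have hmin : ∀ i, ∃ j : Fin (n i + 1), ∀ l, P.ord (x i j) ≤ P.ord (x i l) := by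
      intro i
      obtain ⟨j, -, hj⟩ := Finset.exists_min_image Finset.univ (fun l => P.ord (x i l))
        ⟨(0 : Fin (n i + 1)), Finset.mem_univ _⟩
      exact ⟨j, fun l => hj l (Finset.mem_univ l)⟩
    choose j hj using hmin
    obtain ⟨α, hα⟩ : ∃ α : Fin r → ℤ, α = fun i => P.ord (x i (j i)) := ⟨_, rfl⟩
    have hα1 : ∀ i l, α i ≤ P.ord (x i l) := fun i l => by
      rw [hα]
      exact hj i l
    have hαm : ∀ i, minO (x i) P = α i := by
      intro i
      apply le_antisymm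
      · rw [hα]
        exact minO_le (x i) P (j i)
      · exact Finset.le_inf' _ _ fun l _ => hα1 i l
    have hv : ∀ i, ∃ v : ℕ, P.ord (aeval (x i) (F i)) = dF i * α i + v := by
      intro i
      have h1 : aeval (x i) (F i) = x i (j i) ^ dF i *
          aeval (fun l => x i l / x i (j i)) (F i) := by
        rw [← aeval_smul_form (hh i)]
        congr 2
        funext l
        rw [mul_div_cancel₀ _ (hx i _)]
      have h2 : aeval (fun l => x i l / x i (j i)) (F i) ≠ 0 := by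
        intro h0
        rw [h0, mul_zero] at h1
        exact hFx i h1
      have h3 : P.Reg (aeval (fun l => x i l / x i (j i)) (F i)) := by
        refine reg_aeval (fun l => Or.inr ?_) _
        rw [P.ord_div (hx i l) (hx i _)]
        linarith [hj i l]
      have h4 := h3.resolve_left h2
      refine ⟨(P.ord (aeval (fun l => x i l / x i (j i)) (F i))).toNat, ?_⟩
      rw [Int.toNat_of_nonneg h4, h1, P.ord_mul (pow_ne_zero _ (hx i _)) h2, P.ord_pow, hα]
    choose v hv using hv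
    have hδv : δ P = c v := by
      rw [hδ]
      congr 1
      funext i
      unfold mulQ
      rw [hαm, hv]
      simp
    have hom := om_ord e hn P D hD hx hbas hs hh hFx α hα1 j (fun i => by rw [hα]) v hv
    -- the divisibility
    have hT' : ∀ j, M j ∣ ∑ i, a j i * v i := by
      intro c
      have h1 := congrArg P.ord (hz c)
      rw [P.ord_pow, ord_prod' P Finset.univ _ fun i _ => pow_ne_zero _
        (div_ne_zero (hFx i) (pow_ne_zero _ (hx i 0)))] at h1
      have h2 : ∀ i, P.ord ((aeval (x i) (F i) / x i 0 ^ dF i) ^ a c i) =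
          (a c i * dF i : ℕ) * (α i - P.ord (x i 0)) + ((a c i * v i : ℕ) : ℤ) := by
        intro i
        rw [P.ord_pow, P.ord_div (hFx i) (pow_ne_zero _ (hx i 0)), P.ord_pow, hv]
        push_cast
        ring
      rw [Finset.sum_congr rfl fun i _ => h2 i, Finset.sum_add_distrib] at h1
      have h3 : (M c : ℤ) ∣ ∑ i, ((a c i * dF i : ℕ) : ℤ) * (α i - P.ord (x i 0)) :=
        Finset.dvd_sum fun i _ => Dvd.dvd.mul_right (by exact_mod_cast hdiv c i) _
      have h4 : (M c : ℤ) ∣ ∑ i, ((a c i * v i : ℕ) : ℤ) := by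
        have h5 : ∑ i, ((a c i * v i : ℕ) : ℤ) = M c * P.ord (z c) -
            ∑ i, ((a c i * dF i : ℕ) : ℤ) * (α i - P.ord (x i 0)) := by
          rw [h1]
          ring
        rw [h5]
        exact dvd_sub (dvd_mul_right _ _) h3
      exact_mod_cast h4
    -- the order
    have hge1 : Ge P (T * (∑ i, ((n i : ℤ) + 1) * α i + ∑ i, (v i : ℤ) -
        (if v = 0 then 0 else 1)) - ∑ i, (E i : ℤ) * (dF i * α i + v i)) (om e D x ^ T / den) := by
      have h1 := ge_div hden (hom.pow T)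
      refine h1.mono (le_of_eq ?_)
      simp only [den]
      rw [ord_prod' P Finset.univ _ fun i _ => pow_ne_zero _ (hFx i)]
      congr 1
      exact Finset.sum_congr rfl fun i _ => by rw [P.ord_pow, hv]
    have hge2 : Ge P (-(∑ i ∈ I, (v i : ℤ))) (∏ i ∈ I, x i (pick e (Fb b) i) / L i) := by
      rw [← Finset.sum_neg_distrib]
      refine Ge.prod I _ _ fun i _ => ?_
      right
      rw [P.ord_div (hx i _) (hLne i), hL]
      dsimp only
      rw [P.ord_div (hFx i) (pow_ne_zero _ (hx i 0)), P.ord_pow, hv]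
      have h1 := hα1 i (pick e (Fb b) i)
      have h2 := hα1 i 0
      have h3 : ((dF i - 1 : ℕ) : ℤ) = dF i - 1 := by
        have := hdF i
        omega
      rw [h3]
      have h4 : (0 : ℤ) ≤ (dF i : ℤ) - 1 := by
        have := hdF i
        omega
      nlinarith
    have h1 : T * (∑ i, ((n i : ℤ) + 1) * α i) = ∑ i, (E i : ℤ) * (dF i * α i) := by
      rw [Finset.mul_sum]
      refine Finset.sum_congr rfl fun i _ => ?_
      have h2 : (E i : ℤ) * dF i = T * (n i + 1) := by exact_mod_cast hE i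
      calc (T : ℤ) * (((n i : ℤ) + 1) * α i) = (T * (n i + 1)) * α i := by ring
        _ = (E i * dF i) * α i := by rw [h2]
        _ = _ := by ring
    have h2 : ∑ i, (E i : ℤ) * (dF i * α i + v i) =
        ∑ i, (E i : ℤ) * (dF i * α i) + ∑ i, (E i : ℤ) * v i := by
      rw [← Finset.sum_add_distrib]
      exact Finset.sum_congr rfl fun i _ => by ring
    have h3 : ∑ i, ((T : ℚ) - E i) * v i = T * ∑ i, (v i : ℚ) - ∑ i, (E i : ℚ) * v i := by
      rw [Finset.mul_sum, ← Finset.sum_sub_distrib]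
      exact Finset.sum_congr rfl fun i _ => by ring
    dsimp only
    rcases hge1.mul hge2 with h0 | h0
    · exact Or.inl h0
    · right
      refine ⟨1, by simp, one_ne_zero, ?_⟩
      rw [P.ord_one, hδv]
      have h5 := (Int.cast_le (R := ℚ)).2 h0
      rw [h2, ← h1] at h5
      have h6 : (T : ℚ) * ((if v = 0 then 0 else 1) - c v) + ∑ i ∈ I, (v i : ℚ) ≤
          T * ∑ i, (v i : ℚ) - ∑ i, (E i : ℚ) * v i := by
        by_cases hv0 : v = 0
        · rw [if_pos hv0, hv0, hc0]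
          simp
        · rw [if_neg hv0, ← h3]
          exact hkey v ⟨hv0, hT'⟩
      have h9 : (((if v = 0 then (0 : ℤ) else 1) : ℤ) : ℚ) = if v = 0 then 0 else 1 := by
        split_ifs <;> simp
      push_cast at h5 h6 h9 ⊢
      try rw [h9] at h5
      nlinarith
  · change om e D0 x ^ T / den * ∏ i ∈ I, x i (pick e 0 i) / L i ≠ 0
    exact mul_ne_zero (div_ne_zero (pow_ne_zero _ hD0) hden)
      (Finset.prod_ne_zero_iff.2 fun i _ => div_ne_zero (hx i _) (hLne i))
  · have hpf : om e D0 x ^ T / den ≠ 0 := div_ne_zero (pow_ne_zero _ hD0) hden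
    have e1 : (fun b : Fin h => om e D0 x ^ T / den * (∏ i ∈ I, x i (pick e (f b).succ i) / L i) /
        (om e D0 x ^ T / den * ∏ i ∈ I, x i (pick e 0 i) / L i)) = uu e x ∘ f := by
      funext b
      rw [mul_div_mul_left _ _ hpf, pick_ratioI e (fun i => hx i 0) hLne I _ (hfI b)]
      rfl
    change AlgebraicIndependent ℂ (fun b : Fin h =>
      om e D0 x ^ T / den * (∏ i ∈ I, x i (pick e (f b).succ i) / L i) /
        (om e D0 x ^ T / den * ∏ i ∈ I, x i (pick e 0 i) / L i))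
    rw [e1]
    exact hbas.1.comp f hf

end Pool.Agent.Q57.TQ
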