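import Pool.Agent.Q57.TQ.Up
import Pool.Agent.Y169.CH.Cnt

/-!
The numerical dimension and the pseudo-effectivity of a pair, for covers of products of projective
spaces (following `Pool.Agent.Y169.CH.Cnt`).
-/

set_option autoImplicit false
set_option linter.overlappingInstances false
set_option linter.unusedSectionVars false
set_option maxHeartbeats 1000000

open FF MvPolynomial IntermediateField Pool.Agent.W603.LV Pool.Agent.W619.PQ
open Pool.Agent.W619.TW Pool.Agent.W602.GT Pool.Agent.TH122.AB Pool.Agent.TH756.PN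
open Pool.Agent.Y169.CH Pool.Agent.Y169.CH.Cvr Pool.Agent.Q57.TP

namespace Pool.Agent.Q57.TQ

variable {d r : ℕ} {Φ : Blk ℂ (d + 1) r} {K : Type} [Field K] [Algebra ℂ K] {R : ℕ}
  (C : Cvr Φ K R) {c : (Fin r → ℕ) → ℚ} {δ : Place ℂ K → ℚ}

/-- **Not pseudo-effective.** -/
theorem not_psef_d (hΦ : Smo Φ) (hcf : CoefH C c δ)
    (hmul : ∀ v (r : ℕ), 1 ≤ r → Adm C.M C.a v → 1 - c (r • v) ≤ r * (1 - c v)) {v : Fin r → ℕ} (hv : v ≠ 0)
    (hT : ∀ j, C.M j ∣ ∑ t, C.a j t * v t)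
    (hlt : ∑ t, (((Φ.D t : ℚ) - Φ.n t - 1) / Φ.D t) * v t < 1 - c v) (S : Finset K) :
    ∃ M : ℕ, ∀ j : ℕ, 1 ≤ j → ∀ ω : (Fin (d + 1) → Derivation ℂ K K) → K,
      SecD (d + 1) δ (pw S j) (j * M) ω → ω = 0 := by
  classical
  obtain ⟨T, rfl⟩ := C.exists_dir hv hT
  obtain ⟨C0, c1, hC⟩ := sec_bound_d C hΦ hcf hmul (fun _ : Unit => T) S
  obtain ⟨α, hα⟩ : ∃ α : ℚ, α = ∑ t, (((Φ.D t : ℚ) - Φ.n t - 1) / Φ.D t) * T.v t := ⟨_, rfl⟩
  rw [← hα] at hlt
  obtain ⟨V, hV⟩ : ∃ V : ℕ, V = ∑ t, T.v t := ⟨_, rfl⟩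
  obtain ⟨β, hβ⟩ : ∃ β : ℚ, β = 1 - c T.v := ⟨_, rfl⟩
  rw [← hβ] at hlt
  obtain ⟨M, hM⟩ := exists_nat_gt ((2 * c1 * (1 + V)) / (β - α))
  have h1α : 0 < β - α := by linarith
  rw [div_lt_iff₀ h1α] at hM
  refine ⟨M, fun j hj ω hω => ?_⟩
  by_contra hω0
  have h1 := hC (j * M) j 1 (fun _ => ω) ?_ (fun _ => hω) ∅ ?_
  · simp at h1
  · rw [linearIndependent_unique_iff]
    exact hω0
  · intro a ha1 ha2
    exfalso
    have h2 := ha2 ()
    have hDq : ∀ t, (0 : ℚ) < Φ.D t := fun t => by exact_mod_cast Φ.hD t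
    have h3 : ∀ t, (a (Φ.c t) : ℚ) ≤ (((Φ.D t : ℚ) - Φ.n t - 1) / Φ.D t) * (j * M) +
        c1 * (j + 1) := by
      intro t
      have h4 := ha1 t
      rw [wbd_c] at h4
      have h5 : (Φ.D t : ℚ) * a (Φ.c t) ≤ ((Φ.D t : ℚ) - Φ.n t - 1) * (j * M) + c1 * (j + 1) := by
        have h6 : ((Φ.D t * a (Φ.c t) : ℕ) : ℤ) ≤
            ((Φ.D t : ℤ) - Φ.n t - 1) * ((j * M : ℕ) : ℤ) + c1 * (j + 1) := by
          refine le_trans ?_ h4
          exact_mod_cast Nat.le_add_right _ _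
        exact_mod_cast h6
      have h6 : (Φ.D t : ℚ) * a (Φ.c t) ≤ Φ.D t * ((((Φ.D t : ℚ) - Φ.n t - 1) / Φ.D t) * (j * M) +
          c1 * (j + 1)) := by
        have h7 : (1 : ℚ) ≤ Φ.D t := by exact_mod_cast Φ.hD t
        have h8 : (0 : ℚ) ≤ (c1 : ℚ) * (j + 1) := by positivity
        have h9 : (Φ.D t : ℚ) * ((((Φ.D t : ℚ) - Φ.n t - 1) / Φ.D t) * (j * M)) =
            ((Φ.D t : ℚ) - Φ.n t - 1) * (j * M) := by
          have := (hDq t).ne'
          field_simp
        rw [mul_add, h9]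
        nlinarith
      exact le_of_mul_le_mul_left h6 (hDq t)
    have h4 : ∑ t, (T.v t : ℚ) * a (Φ.c t) ≤ α * (j * M) + c1 * (j + 1) * V := by
      rw [hα, hV]
      push_cast
      rw [Finset.sum_mul, Finset.mul_sum, ← Finset.sum_add_distrib]
      refine Finset.sum_le_sum fun t _ => ?_
      have h5 : (T.v t : ℚ) * a (Φ.c t) ≤ T.v t *
        ((((Φ.D t : ℚ) - Φ.n t - 1) / Φ.D t) * (j * M) + c1 * (j + 1)) :=
        mul_le_mul_of_nonneg_left (h3 t) (by positivity)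
      refine h5.trans (le_of_eq ?_)
      ring
    have h5 : β * ((j : ℚ) * M) - c1 * (j + 1) ≤ ∑ t, (T.v t : ℚ) * a (Φ.c t) := by
      rw [hβ]
      push_cast at h2
      exact h2
    have hjq : (1 : ℚ) ≤ j := by exact_mod_cast hj
    have h6 : (j : ℚ) * (M * (β - α)) ≤ j * (2 * c1 * (1 + V)) := by
      have h7 : (c1 : ℚ) * (j + 1) * (1 + V) ≤ c1 * (2 * j) * (1 + V) := by
        apply mul_le_mul_of_nonneg_right _ (by positivity)
        apply mul_le_mul_of_nonneg_left _ (by positivity)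
        linarith
      nlinarith
    have h7 := le_of_mul_le_mul_left h6 (by linarith)
    linarith

/-- **The numerical dimension.** -/
theorem num_le_d (hΦ : Smo Φ) (hcf : CoefH C c δ)
    (hmul : ∀ v (r : ℕ), 1 ≤ r → Adm C.M C.a v → 1 - c (r • v) ≤ r * (1 - c v))
    (I : Finset (Fin r))
    (hI : ∀ t, t ∉ I → ∃ v : Fin r → ℕ, v t ≠ 0 ∧ (∀ j, C.M j ∣ ∑ s, C.a j s * v s) ∧
      ∑ s, (((Φ.D s : ℚ) - Φ.n s - 1) / Φ.D s) * v s = 1 - c v) (S : Finset K) :
    ∃ C1 : ℕ, ∀ (m N : ℕ), 1 ≤ m → ∀ ω : Fin N → (Fin (d + 1) → Derivation ℂ K K) → K,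
      LinearIndependent ℂ ω → (∀ l, SecD (d + 1) δ S m (ω l)) → N ≤ C1 * m ^ (∑ t ∈ I, Φ.n t) := by
  classical
  choose! v hv0 hvT hv1 using hI
  have hex : ∀ s : {t // t ∉ I}, ∃ T : C.Dir, T.v = v s.1 := fun s =>
    C.exists_dir (fun h => hv0 s.1 s.2 (by rw [h]; rfl)) (hvT s.1 s.2)
  choose T hTv using hex
  obtain ⟨C0, c1, hC⟩ := sec_bound_d C hΦ hcf hmul T S
  obtain ⟨V, hV⟩ : ∃ V : ℕ, V = ∑ s : {t // t ∉ I}, ∑ t, v s.1 t := ⟨_, rfl⟩
  obtain ⟨DD, hDD⟩ : ∃ DD : ℕ, DD = ∑ t, Φ.D t := ⟨_, rfl⟩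
  obtain ⟨E, hE⟩ : ∃ E : ℕ, E = 4 * c1 * (1 + V) * DD + DD + 2 * c1 := ⟨_, rfl⟩
  have hDle : ∀ t, Φ.D t ≤ DD := by
    intro t
    rw [hDD]
    exact Finset.single_le_sum (f := fun t => Φ.D t) (fun _ _ => Nat.zero_le _)
      (Finset.mem_univ t)
  refine ⟨C0 * (E + 2) ^ (d + 1), fun m N hm ω hlin hsec => ?_⟩
  -- the right-hand side
  obtain ⟨hi, hhi⟩ : ∃ hi : Fin r → ℤ, hi = fun t => ((Φ.D t : ℤ) - Φ.n t - 1) * m + c1 * (1 + 1) :=
    ⟨_, rfl⟩
  -- the box
  let Q : Fin (d + 1) → Finset ℕ := fun b => if Φ.τ b ∈ I then Finset.range ((E + 2) * m) else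
    if b = Φ.c (Φ.τ b) then Finset.Icc ((hi (Φ.τ b) - E) / Φ.D (Φ.τ b)).toNat
      (hi (Φ.τ b) / Φ.D (Φ.τ b)).toNat else Finset.range (E + 1)
  have hcardQ : ∀ b, (Q b).card ≤ (E + 2) * (if Φ.τ b ∈ I then m else 1) := by
    intro b
    simp only [Q]
    split_ifs with h1 h2
    · rw [Finset.card_range]
    · rw [Nat.card_Icc, mul_one]
      have hD : (0 : ℤ) < Φ.D (Φ.τ b) := by exact_mod_cast Φ.hD _
      have h3 : hi (Φ.τ b) / Φ.D (Φ.τ b) ≤ (hi (Φ.τ b) - E) / Φ.D (Φ.τ b) + E := by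
        have h4 : hi (Φ.τ b) / Φ.D (Φ.τ b) ≤
            (hi (Φ.τ b) - E + E * Φ.D (Φ.τ b)) / Φ.D (Φ.τ b) := by
          apply Int.ediv_le_ediv hD
          have h5 : (E : ℤ) * 1 ≤ E * Φ.D (Φ.τ b) :=
            mul_le_mul_of_nonneg_left (by omega) (by positivity)
          linarith
        rwa [Int.add_mul_ediv_right _ _ hD.ne'] at h4
      omega
    · rw [Finset.card_range]
      omega
  let A : Finset (Fin (d + 1) →₀ ℕ) := (Fintype.piFinset Q).image Finsupp.equivFunOnFinite.symm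
  have hA : A.card ≤ (E + 2) ^ (d + 1) * m ^ (∑ t ∈ I, Φ.n t) := by
    calc A.card ≤ (Fintype.piFinset Q).card := Finset.card_image_le
      _ = ∏ b, (Q b).card := Fintype.card_piFinset Q
      _ ≤ ∏ b, ((E + 2) * (if Φ.τ b ∈ I then m else 1)) :=
          Finset.prod_le_prod' fun b _ => hcardQ b
      _ = (E + 2) ^ (d + 1) * m ^ (∑ t ∈ I, Φ.n t) := by
          rw [Finset.prod_mul_distrib, Finset.prod_const, Finset.card_univ, Fintype.card_fin]
          congr 1
          rw [Finset.prod_ite, Finset.prod_const, Finset.prod_const_one, mul_one]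
          congr 1
          have h1 : (Finset.univ.filter fun b => Φ.τ b ∈ I) =
              I.biUnion fun t => Finset.univ.filter fun b => Φ.τ b = t := by
            ext b
            simp
          rw [h1, Finset.card_biUnion]
          · rfl
          · intro s _ t _ hst
            rw [Function.onFun, Finset.disjoint_left]
            intro b hb hb'
            rw [Finset.mem_filter] at hb hb'
            exact hst (hb.2.symm.trans hb'.2)
  refine (hC m 1 N ω hlin (fun l => by rw [pw_one]; exact hsec l) A ?_).trans ?_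
  · intro a ha1 ha2
    refine Finset.mem_image.2 ⟨Finsupp.equivFunOnFinite a, ?_, by simp⟩
    rw [Fintype.mem_piFinset]
    intro b
    change a b ∈ Q b
    have hb0 := le_wbd (Φ := Φ) a b
    have hb1 := ha1 (Φ.τ b)
    simp only [Q]
    by_cases hbI : Φ.τ b ∈ I
    · rw [if_pos hbI, Finset.mem_range]
      have h1 : (a b : ℤ) ≤ ((Φ.D (Φ.τ b) : ℤ) - Φ.n (Φ.τ b) - 1) * m + c1 * (1 + 1) := by
        refine le_trans ?_ hb1
        exact_mod_cast hb0
      have h2 : (a b : ℤ) < ((E + 2) * m : ℕ) := by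
        push_cast
        have h3 : (Φ.D (Φ.τ b) : ℤ) ≤ DD := by exact_mod_cast hDle _
        have h4 : (1 : ℤ) ≤ m := by exact_mod_cast hm
        have h5 : (E : ℤ) = 4 * c1 * (1 + V) * DD + DD + 2 * c1 := by exact_mod_cast hE
        have h6 : ((Φ.D (Φ.τ b) : ℤ) - Φ.n (Φ.τ b) - 1) * m ≤ DD * m :=
          mul_le_mul_of_nonneg_right (by
            have : (0 : ℤ) ≤ Φ.n (Φ.τ b) := by positivity
            linarith) (by linarith)
        have h7 : (c1 : ℤ) * (1 + 1) ≤ 2 * c1 * m := by nlinarith [Int.natCast_nonneg c1]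
        have h8 : (0 : ℤ) ≤ 4 * c1 * (1 + V) * DD * m := by positivity
        rw [h5]
        nlinarith
      exact_mod_cast h2
    · rw [if_neg hbI]
      obtain ⟨t0, ht0⟩ : ∃ t0, t0 = Φ.τ b := ⟨_, rfl⟩
      rw [← ht0] at hbI hb1 ⊢
      have h2 := ha2 ⟨t0, hbI⟩
      rw [hTv] at h2
      obtain ⟨w, hw⟩ : ∃ w, w = v t0 := ⟨_, rfl⟩
      have hw0 : 1 ≤ w t0 := by
        rw [hw]
        exact Nat.one_le_iff_ne_zero.2 (hv0 t0 hbI)
      have hw1 := hv1 t0 hbI
      have hwV : ∑ t, w t ≤ V := by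
        rw [hw, hV]
        exact Finset.single_le_sum (f := fun s : {t // t ∉ I} => ∑ t, v s.1 t)
          (fun _ _ => Nat.zero_le _) (Finset.mem_univ (⟨t0, hbI⟩ : {t // t ∉ I}))
      simp only [← hw] at h2 hw1
      -- the deficiencies
      obtain ⟨rr, hrr⟩ : ∃ rr : Fin r → ℕ, rr = fun t => ∑ b ∈ Finset.univ.erase (Φ.c t),
        if Φ.τ b = t then a b else 0 := ⟨_, rfl⟩
      have hwb : ∀ t, Φ.wbd a t = Φ.D t * a (Φ.c t) + rr t := by
        intro t
        rw [wbd_c, hrr]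
      have hDq : ∀ t, (0 : ℚ) < Φ.D t := fun t => by exact_mod_cast Φ.hD t
      have hub : ∀ t, (Φ.D t : ℚ) * a (Φ.c t) + rr t ≤
          ((Φ.D t : ℚ) - Φ.n t - 1) * m + 2 * c1 := by
        intro t
        have h3 := ha1 t
        rw [hwb] at h3
        have h4 : (((Φ.D t * a (Φ.c t) + rr t : ℕ) : ℤ) : ℚ) ≤
            ((((Φ.D t : ℤ) - Φ.n t - 1) * m + c1 * (1 + 1) : ℤ) : ℚ) := by exact_mod_cast h3
        push_cast at h4
        linarith
      obtain ⟨x, hx⟩ : ∃ x : Fin r → ℚ, x = fun t => ((Φ.D t : ℚ) - Φ.n t - 1) * m + 2 * c1 -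
        Φ.D t * a (Φ.c t) := ⟨_, rfl⟩
      have hxr : ∀ t, (rr t : ℚ) ≤ x t := by
        intro t
        rw [hx]
        have := hub t
        dsimp only
        linarith
      have hx0 : ∀ t, 0 ≤ x t := fun t => le_trans (by positivity) (hxr t)
      have hsum : ∑ t, (w t : ℚ) * x t / Φ.D t ≤ 2 * c1 * (1 + V) := by
        have h3 : ∀ t, (w t : ℚ) * x t / Φ.D t = ((((Φ.D t : ℚ) - Φ.n t - 1) / Φ.D t) * w t) * m +
            (w t : ℚ) / Φ.D t * (2 * c1) - w t * a (Φ.c t) := by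
          intro t
          rw [hx]
          have := (hDq t).ne'
          field_simp
        rw [Finset.sum_congr rfl fun t _ => h3 t, Finset.sum_sub_distrib, Finset.sum_add_distrib,
          ← Finset.sum_mul, hw1, ← Finset.sum_mul]
        have h4 := h2
        push_cast at h4
        have h5 : ∑ t, (w t : ℚ) / Φ.D t ≤ V := by
          calc ∑ t, (w t : ℚ) / Φ.D t ≤ ∑ t, (w t : ℚ) := by
                refine Finset.sum_le_sum fun t _ => ?_
                rw [div_le_iff₀ (hDq t)]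
                have h6 : (1 : ℚ) ≤ Φ.D t := by exact_mod_cast Φ.hD t
                nlinarith [Nat.cast_nonneg (α := ℚ) (w t)]
            _ ≤ V := by exact_mod_cast hwV
        have h6 : (∑ t, (w t : ℚ) / Φ.D t) * (2 * c1) ≤ V * (2 * c1) :=
          mul_le_mul_of_nonneg_right h5 (by positivity)
        linarith
      have hxt : x t0 ≤ 2 * c1 * (1 + V) * Φ.D t0 := by
        have h3 : (w t0 : ℚ) * x t0 / Φ.D t0 ≤ ∑ t, (w t : ℚ) * x t / Φ.D t :=
          Finset.single_le_sum (f := fun t => (w t : ℚ) * x t / Φ.D t)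
            (fun t _ => div_nonneg (mul_nonneg (by positivity) (hx0 t)) (hDq t).le)
            (Finset.mem_univ t0)
        have h4 := h3.trans hsum
        rw [div_le_iff₀ (hDq t0)] at h4
        have h5 : (1 : ℚ) ≤ w t0 := by exact_mod_cast hw0
        have h6 : 1 * x t0 ≤ w t0 * x t0 := mul_le_mul_of_nonneg_right h5 (hx0 t0)
        linarith
      have hEq : (E : ℚ) = 4 * c1 * (1 + V) * DD + DD + 2 * c1 := by exact_mod_cast hE
      have hxE : x t0 ≤ E := by
        have h3 : (Φ.D t0 : ℚ) ≤ DD := by exact_mod_cast hDle t0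
        have h4 : (2 : ℚ) * c1 * (1 + V) * Φ.D t0 ≤ 2 * c1 * (1 + V) * DD :=
          mul_le_mul_of_nonneg_left h3 (by positivity)
        have h5 : (0 : ℚ) ≤ 2 * c1 * (1 + V) * DD := by positivity
        have h6 : (0 : ℚ) ≤ DD := by positivity
        have h7 : (0 : ℚ) ≤ 2 * c1 := by positivity
        rw [hEq]
        linarith
      by_cases hbc : b = Φ.c t0
      · rw [if_pos hbc, Finset.mem_Icc, hbc]
        have hhi' : ((hi t0 : ℤ) : ℚ) = ((Φ.D t0 : ℚ) - Φ.n t0 - 1) * m + 2 * c1 := by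
          rw [hhi]
          push_cast
          ring
        have hxt0 : x t0 = hi t0 - Φ.D t0 * a (Φ.c t0) := by
          rw [hx, hhi']
        have hD : (0 : ℤ) < Φ.D t0 := by exact_mod_cast Φ.hD _
        have h3 : hi t0 - E ≤ (Φ.D t0 : ℤ) * a (Φ.c t0) := by
          have : (hi t0 : ℚ) - E ≤ (Φ.D t0 : ℚ) * a (Φ.c t0) := by linarith
          exact_mod_cast this
        have h4 : (Φ.D t0 : ℤ) * a (Φ.c t0) ≤ hi t0 := by
          have h5 := hx0 t0
          have : (Φ.D t0 : ℚ) * a (Φ.c t0) ≤ hi t0 := by linarith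
          exact_mod_cast this
        constructor
        · rw [Int.toNat_le]
          exact Int.ediv_le_of_le_mul hD (by linarith)
        · have h5 : (a (Φ.c t0) : ℤ) ≤ hi t0 / Φ.D t0 := by
            rw [Int.le_ediv_iff_mul_le hD]
            linarith
          omega
      · rw [if_neg hbc, Finset.mem_range]
        have h3 : a b ≤ rr t0 := by
          rw [hrr]
          have h4 := Finset.single_le_sum (f := fun b' => if Φ.τ b' = t0 then a b' else 0)
            (fun _ _ => Nat.zero_le _) (Finset.mem_erase.2 ⟨hbc, Finset.mem_univ b⟩)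
          simpa only [← ht0, if_true] using h4
        have h4 : (a b : ℚ) ≤ E := by
          have h5 : (a b : ℚ) ≤ rr t0 := by exact_mod_cast h3
          exact h5.trans ((hxr t0).trans hxE)
        have h5 : a b ≤ E := by exact_mod_cast h4
        omega
  · calc C0 * A.card ≤ C0 * ((E + 2) ^ (d + 1) * m ^ (∑ t ∈ I, Φ.n t)) :=
          Nat.mul_le_mul_left _ hA
      _ = _ := by ring

end Pool.Agent.Q57.TQ
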